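import Pool.Agent.Lib.MP_eee7a8_ag.TB.IfaceB

/-!
# TAGBR Part B, module DINV: the inverse twist (uses ORD NEST SAME WW SEPFIN)
-/

open Matrix

namespace Pool.Agent.Lib.MP_eee7a8_ag.TB.PB.H91

variable {G : Subgroup SLZ} {κ : Type}

/-- Conjugation as a map on lists. -/
def cj (w : SLZ) (k : SLZ) : SLZ := w * k * w⁻¹

theorem cj_inj (w : SLZ) : Function.Injective (cj w) := by
  intro a b h
  unfold cj at h
  exact mul_left_cancel (mul_right_cancel h)

/-- The list of the images of the half planes. -/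
def im (w : SLZ → SLZ) : List SLZ → List SLZ
  | [] => []
  | k :: t => k :: (im w t).map (cj (w k))

theorem conj_self_of_comm {w k : SLZ} (h : w * k = k * w) : w * k * w⁻¹ = k := by
  rw [h, mul_inv_cancel_right]

theorem step (hN : NEST_S) (hS : SAME_S) (hW : WW_S) (Λ : LFam G κ) (n : κ → ℤ) (o y : Cusp)
    (pre rest : List SLZ) (k : SLZ)
    (hl : IsOrd (Pt.ofCusp Λ o) (Pt.ofCusp Λ y) (pre ++ k :: rest)) :
    IsOrd (Pt.ofCusp Λ o) (Pt.ofCusp Λ (Λ.w n k • y)) (pre ++ k :: rest.map (cj (Λ.w n k))) := by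
  obtain ⟨hmem, hnd, hpw⟩ := hl
  obtain ⟨-, -, -, -, hW5⟩ := hW G κ Λ n
  have hsep : ∀ z k', k' ∈ (Pt.ofCusp Λ o).Sep (Pt.ofCusp Λ z) ↔
      k' ∈ Λ.KK ∧ ¬ 0 < side k' o ∧ 0 < side k' z := fun z k' => Iff.rfl
  simp only [hsep] at hmem
  have hk := (hmem k).1 (by simp)
  obtain ⟨hkK, hko, hky⟩ := hk
  obtain ⟨hwG, hwk, hws⟩ := hW5 k hkK
  set w := Λ.w n k with hw
  have hcjk : w * k * w⁻¹ = k := conj_self_of_comm hwk
  have hwk' : w⁻¹ * k = k * w⁻¹ := by
    have : w * (w⁻¹ * k) = w * (k * w⁻¹) := by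
      rw [mul_inv_cancel_left, ← mul_assoc, hwk, mul_inv_cancel_right]
    exact mul_left_cancel this
  have hcjk' : w⁻¹ * k * w = k := by rw [hwk', inv_mul_cancel_right]
  -- order relations
  have hpre : ∀ k' ∈ pre, HP k k' := by
    intro k' hk'
    exact (List.pairwise_append.1 hpw).2.2 k' hk' k (by simp)
  have hrest : ∀ k' ∈ rest, HP k' k := by
    intro k' hk'
    have := (List.pairwise_append.1 hpw).2.1
    exact (List.pairwise_cons.1 this).1 k' hk'
  have hconjrest : ∀ k' ∈ rest, HP (cj w k') k := by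
    intro k' hk'
    have := (hrest k' hk').conj w
    rwa [hcjk] at this
  have hKrest : ∀ k' ∈ rest, k' ∈ Λ.KK := fun k' hk' =>
    ((hmem k').1 (by simp [hk'])).1
  have hKpre : ∀ k' ∈ pre, k' ∈ Λ.KK := fun k' hk' =>
    ((hmem k').1 (by simp [hk'])).1
  have hKcj : ∀ k' ∈ rest, cj w k' ∈ Λ.KK := fun k' hk' => LFam.KK_conj (hKrest k' hk') hwG
  have hyw : 0 < side k (w • y) := by rw [hws]; exact hky
  have hsj : ∀ k', side (cj w k') (w • y) = side k' y := fun k' => side_conj w k' y
  refine ⟨?_, ?_, ?_⟩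
  · intro k'
    rw [hsep]
    constructor
    · intro h
      rcases List.mem_append.1 h with h | h
      · have h1 := (hmem k').1 (by simp [h])
        exact ⟨h1.1, h1.2.1, hpre k' h _ hyw⟩
      · rcases List.mem_cons.1 h with rfl | h
        · exact ⟨hkK, hko, hyw⟩
        · obtain ⟨k'', hk'', rfl⟩ := List.mem_map.1 h
          refine ⟨hKcj _ hk'', fun h' => hko (hconjrest _ hk'' _ h'), ?_⟩
          rw [hsj]
          exact ((hmem k'').1 (by simp [hk''])).2.2
    · rintro ⟨hK', ho', hy'⟩
      have hcase : HP k k' ∨ HP k' k := by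
        rcases hN G κ Λ k hkK k' hK' with h | h | h | h
        · exact Or.inl h
        · exact Or.inr h
        · exfalso
          have := h _ hyw
          rw [side_inv] at this
          omega
        · exfalso
          apply ho'
          apply h
          rw [side_inv]
          have := LFam.side_ne hkK o
          omega
      rcases hcase with h | h
      · have h1 : k' ∈ pre ++ k :: rest := (hmem k').2 ⟨hK', ho', h _ hky⟩
        rcases List.mem_append.1 h1 with h2 | h2
        · simp [h2]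
        · rcases List.mem_cons.1 h2 with rfl | h2
          · simp
          · have := hS G κ Λ k hkK k' hK' h (hrest k' h2)
            subst this
            simp
      · have hK2 : w⁻¹ * k' * w ∈ Λ.KK := LFam.KK_conj' hK' hwG
        have hp2 : HP (w⁻¹ * k' * w) k := by
          have := h.conj w⁻¹
          rw [inv_inv, hcjk'] at this
          exact this
        have hy2 : 0 < side (w⁻¹ * k' * w) y := by
          have := side_conj w (w⁻¹ * k' * w) y
          rw [← this]
          have e : w * (w⁻¹ * k' * w) * w⁻¹ = k' := by group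
          rw [e]
          exact hy'
        have h1 : w⁻¹ * k' * w ∈ pre ++ k :: rest :=
          (hmem _).2 ⟨hK2, fun h' => hko (hp2 _ h'), hy2⟩
        have key : w⁻¹ * k' * w = k → k' = k := by
          intro e
          have : k' = w * (w⁻¹ * k' * w) * w⁻¹ := by group
          rw [this, e, hcjk]
        rcases List.mem_append.1 h1 with h2 | h2
        · have := hS G κ Λ _ hK2 k hkK hp2 (hpre _ h2)
          rw [key this]
          simp
        · rcases List.mem_cons.1 h2 with h3 | h2
          · rw [key h3]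
            simp
          · apply List.mem_append_right
            apply List.mem_cons_of_mem
            refine List.mem_map.2 ⟨_, h2, ?_⟩
            unfold cj
            group
  · rw [List.nodup_append] at hnd ⊢
    obtain ⟨hn1, hn2, hn3⟩ := hnd
    rw [List.nodup_cons] at hn2 ⊢
    refine ⟨hn1, ⟨?_, hn2.2.map (cj_inj w)⟩, ?_⟩
    · intro h
      obtain ⟨k'', hk'', e⟩ := List.mem_map.1 h
      apply hn2.1
      have : k'' = k := by
        apply cj_inj w
        rw [e]
        exact hcjk.symm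
      rw [this] at hk''
      exact hk''
    · intro a ha b hb hab
      subst hab
      rcases List.mem_cons.1 hb with rfl | hb
      · exact hn3 a ha a (by simp) rfl
      · obtain ⟨k'', hk'', e⟩ := List.mem_map.1 hb
        have h1 : HP k a := hpre a ha
        have h2 : HP a k := by rw [← e]; exact hconjrest _ hk''
        have h3 := hS G κ Λ k hkK a (hKpre a ha) h1 h2
        rw [← h3] at ha
        exact hn3 k ha k (by simp) rfl
  · rw [List.pairwise_append] at hpw ⊢
    obtain ⟨hp1, hp2, hp3⟩ := hpw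
    rw [List.pairwise_cons] at hp2 ⊢
    refine ⟨hp1, ⟨?_, ?_⟩, ?_⟩
    · intro a ha
      obtain ⟨k'', hk'', rfl⟩ := List.mem_map.1 ha
      exact hconjrest _ hk''
    · rw [List.pairwise_map]
      exact hp2.2.imp (fun h => h.conj w)
    · intro a ha b hb
      rcases List.mem_cons.1 hb with rfl | hb
      · exact hpre a ha
      · obtain ⟨k'', hk'', rfl⟩ := List.mem_map.1 hb
        exact (hconjrest _ hk'').trans (hpre a ha)

theorem main_ord (hN : NEST_S) (hS : SAME_S) (hW : WW_S) (Λ : LFam G κ) (n : κ → ℤ)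
    (o v : Cusp) : ∀ suf pre : List SLZ,
    IsOrd (Pt.ofCusp Λ o) (Pt.ofCusp Λ v) (pre ++ suf) →
    IsOrd (Pt.ofCusp Λ o) (Pt.ofCusp Λ ((suf.map (Λ.w n)).prod • v)) (pre ++ im (Λ.w n) suf) := by
  intro suf
  induction suf with
  | nil =>
    intro pre h
    simpa [im] using h
  | cons k t ih =>
    intro pre h
    have h1 := ih (pre ++ [k]) (by simpa using h)
    rw [List.append_assoc, List.singleton_append] at h1
    have h2 := step hN hS hW Λ n o _ pre (im (Λ.w n) t) k h1
    rw [List.map_cons, List.prod_cons, mul_smul]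
    exact h2

theorem prod_im (hW : WW_S) (Λ : LFam G κ) (n : κ → ℤ) : ∀ l : List SLZ,
    (∀ k ∈ l, k ∈ Λ.KK) →
    (∀ k ∈ im (Λ.w n) l, k ∈ Λ.KK) ∧
      ((im (Λ.w n) l).map (Λ.w (-n))).prod = ((l.map (Λ.w n)).prod)⁻¹ := by
  obtain ⟨-, -, hW3, hW4, hW5⟩ := hW G κ Λ n
  intro l
  induction l with
  | nil => intro _; simp [im]
  | cons k t ih =>
    intro hl
    have hk := hl k (by simp)
    obtain ⟨hwG, hwk, -⟩ := hW5 k hk
    obtain ⟨ih1, ih2⟩ := ih (fun a ha => hl a (by simp [ha]))
    have hmap : ((im (Λ.w n) t).map (cj (Λ.w n k))).map (Λ.w (-n)) =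
        ((im (Λ.w n) t).map (Λ.w (-n))).map (MulAut.conj (Λ.w n k)) := by
      rw [List.map_map, List.map_map]
      apply List.map_congr_left
      intro a ha
      have haK := ih1 a ha
      have h1 := LFam.KK_conj haK hwG
      simp only [Function.comp, MulAut.conj_apply]
      rw [hW4 a haK]
      unfold cj
      rw [hW4 _ h1, hW3 a haK _ hwG]
      group
    constructor
    · intro a ha
      rcases List.mem_cons.1 ha with rfl | ha
      · exact hk
      · obtain ⟨b, hb, rfl⟩ := List.mem_map.1 ha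
        exact LFam.KK_conj (ih1 b hb) hwG
    · change ((k :: (im (Λ.w n) t).map (cj (Λ.w n k))).map (Λ.w (-n))).prod = _
      rw [List.map_cons, List.prod_cons, hmap, ← map_list_prod, ih2, hW4 k hk, List.map_cons,
        List.prod_cons, MulAut.conj_apply]
      group

theorem cpr_eq (hO : ORD_S) (Λ : LFam G κ) (n : κ → ℤ) (x y : Pt Λ) (l : List SLZ)
    (hl : IsOrd x y l) : cpr n x y = (l.map (Λ.w n)).prod := by
  have hfin : (x.Sep y).Finite := by
    apply Set.Finite.subset l.finite_toSet
    intro k hk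
    exact (hl.1 k).2 hk
  obtain ⟨l₀, h₀, hu⟩ := hO G κ Λ x y hfin
  have H : ∃ l, IsOrd x y l := ⟨l, hl⟩
  unfold cpr
  rw [dif_pos H, hu _ H.choose_spec, hu _ hl]

theorem dinv (hO : ORD_S) (hN : NEST_S) (hS : SAME_S) (hW : WW_S) (hF : SEPFIN_S) : DINV_S := by
  intro G κ _ Λ n v
  obtain ⟨l, hl, -⟩ := hO G κ Λ _ _ (hF G κ inferInstance Λ infty v)
  have h1 : Λ.D n v = (l.map (Λ.w n)).prod • v := by
    unfold LFam.D
    rw [cpr_eq hO Λ n _ _ l hl]
  have h2 := main_ord hN hS hW Λ n infty v l [] (by simpa using hl)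
  rw [List.nil_append] at h2
  have h3 : Λ.D (-n) (Λ.D n v) =
      ((im (Λ.w n) l).map (Λ.w (-n))).prod • (Λ.D n v) := by
    rw [h1]
    change cpr (-n) (Pt.ofCusp Λ infty) (Pt.ofCusp Λ ((l.map (Λ.w n)).prod • v)) •
      ((l.map (Λ.w n)).prod • v) = _
    rw [cpr_eq hO Λ (-n) _ _ _ h2]
  have hK : ∀ k ∈ l, k ∈ Λ.KK := fun k hk => ((hl.1 k).1 hk).1
  rw [h3, (prod_im hW Λ n l hK).2, h1, inv_smul_smul]

end Pool.Agent.Lib.MP_eee7a8_ag.TB.PB.H91
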