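import Pool.Agent.Lib.MP_eee7a8_ag.TB.IfaceB

/-!
# TAGBR Part B, module STRIP: the strip of a hyperbolic element (uses NEXT EXE ARCFAM FIN POS)
-/

open Matrix

namespace Pool.Agent.Lib.MP_eee7a8_ag.TB.PB.H91

/-- A locally finite linear order with an automorphism which increases every element is `ℤ`. -/
theorem int_iso {α : Type} [LinearOrder α] [Nonempty α]
    (hfin : ∀ a b : α, (Set.Icc a b).Finite) (f : α ≃o α) (hf : ∀ a, a < f a) :
    ∃ (e : ℤ → α) (r : ℕ), 0 < r ∧ Function.Surjective e ∧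
      (∀ i, e i < e (i + 1) ∧ ∀ b, e i < b → e (i + 1) ≤ b) ∧ ∀ i, e (i + r) = f (e i) := by
  letI : LocallyFiniteOrder α := LocallyFiniteOrder.ofFiniteIcc hfin
  letI : SuccOrder α := LinearLocallyFiniteOrder.succOrder α
  letI : PredOrder α := LinearLocallyFiniteOrder.predOrder α
  haveI : NoMaxOrder α := ⟨fun a => ⟨f a, hf a⟩⟩
  haveI : NoMinOrder α := ⟨fun a => ⟨f.symm a, by
    have := hf (f.symm a)
    rwa [OrderIso.apply_symm_apply] at this⟩⟩
  let E : α ≃o ℤ := orderIsoIntOfLinearSuccPredArch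
  let g : ℤ ≃o ℤ := (E.symm.trans f).trans E
  have hg1 : ∀ i, g (i + 1) = g i + 1 := by
    intro i
    have h1 : g i < g (i + 1) := g.strictMono (by omega)
    obtain ⟨j, hj⟩ := g.surjective (g i + 1)
    have h2 : i < j := g.strictMono.lt_iff_lt.1 (by omega)
    have h3 : g (i + 1) ≤ g j := g.monotone (by omega)
    omega
  have hg2 : ∀ i, g i = g 0 + i := by
    intro i
    induction i using Int.induction_on with
    | zero => simp
    | succ i ih => rw [hg1, ih]; ring
    | pred i ih =>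
      have := hg1 (-(i : ℤ) - 1)
      rw [sub_add_cancel, ih] at this
      omega
  have hg0 : 0 < g 0 := by
    have h1 : E.symm 0 < f (E.symm 0) := hf _
    have h2 : E (E.symm 0) < E (f (E.symm 0)) := E.strictMono h1
    rwa [OrderIso.apply_symm_apply] at h2
  refine ⟨E.symm, (g 0).toNat, by omega, E.symm.surjective, ?_, ?_⟩
  · intro i
    refine ⟨E.symm.strictMono (by omega), ?_⟩
    intro b hb
    have h1 : i < E b := by
      have := E.strictMono hb
      rwa [OrderIso.apply_symm_apply] at this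
    have h2 : E.symm (i + 1) ≤ E.symm (E b) := E.symm.monotone (by omega)
    rwa [OrderIso.symm_apply_apply] at h2
  · intro i
    have h1 : ((g 0).toNat : ℤ) = g 0 := Int.toNat_of_nonneg hg0.le
    rw [h1]
    have h2 : i + g 0 = E (f (E.symm i)) := by
      have : g i = E (f (E.symm i)) := rfl
      rw [← this, hg2 i]; ring
    rw [h2, OrderIso.symm_apply_apply]

/-- The edges of `T` crossing the axis of `h`. -/
def Edge (G : Subgroup SLZ) {ι : Type} (T : Fam ι) (h : SLZ) : Type :=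
  {p : Cusp × Cusp // T.E G p.1 p.2 ∧ side h p.1 < 0 ∧ 0 < side h p.2}

/-- The sum of the positions. -/
noncomputable def sm {G : Subgroup SLZ} {ι : Type} {T : Fam ι} {h : SLZ} (p : Edge G T h) : ℝ :=
  pos h p.1.1 + pos h p.1.2

theorem E_smul {G : Subgroup SLZ} {ι : Type} {T : Fam ι} {a b : Cusp} (hE : T.E G a b) {g : SLZ}
    (hg : g ∈ G) : T.E G (g • a) (g • b) := by
  obtain ⟨i, k, hk, h | h⟩ := hE
  · refine ⟨i, g * k, G.mul_mem hg hk, Or.inl ⟨?_, ?_⟩⟩
    · rw [mul_smul, h.1]
    · rw [mul_smul, h.2]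
  · refine ⟨i, g * k, G.mul_mem hg hk, Or.inr ⟨?_, ?_⟩⟩
    · rw [mul_smul, h.1]
    · rw [mul_smul, h.2]

theorem side_inv_smul (h : SLZ) (v : Cusp) : side h (h⁻¹ • v) = side h v := by
  have := side_smul_self h (h⁻¹ • v)
  rw [smul_inv_smul] at this
  exact this.symm

theorem strip (hNext : NEXT_S) (hExe : EXE_S) (hArc : ARCFAM_S) (hFin : FIN_S) (hPos : POS_S) :
    STRIP_S := by
  intro G ι _ T h hT hG htr
  obtain ⟨p1, p2, -, -, -, p6, -⟩ := hPos h htr
  -- comparability
  have hcmp : ∀ p q : Edge G T h, sm p ≤ sm q →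
      pos h p.1.1 ≤ pos h q.1.1 ∧ pos h p.1.2 ≤ pos h q.1.2 := by
    intro p q hpq
    have h1 := hT.nocross _ _ _ _ p.2.1 q.2.1
    rw [p2 _ _ _ _ p.2.2.1 q.2.2.1 p.2.2.2 q.2.2.2, not_lt] at h1
    unfold sm at hpq
    generalize pos h p.1.1 = a at *
    generalize pos h p.1.2 = b at *
    generalize pos h q.1.1 = c at *
    generalize pos h q.1.2 = d at *
    constructor
    · by_contra hc
      rw [not_le] at hc
      have h2 : b - d < 0 := by linarith
      have h3 : 0 < a - c := by linarith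
      exact absurd h1 (not_le.2 (mul_neg_of_pos_of_neg h3 h2))
    · by_contra hc
      rw [not_le] at hc
      have h2 : 0 < b - d := by linarith
      have h3 : a - c < 0 := by linarith
      exact absurd h1 (not_le.2 (mul_neg_of_neg_of_pos h3 h2))
  have hinj : Function.Injective (sm (G := G) (T := T) (h := h)) := by
    intro p q hpq
    have h1 := hcmp p q hpq.le
    have h2 := hcmp q p hpq.ge
    have e1 : p.1.1 = q.1.1 :=
      p6 _ _ (mul_pos_of_neg_of_neg p.2.2.1 q.2.2.1) (le_antisymm h1.1 h2.1)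
    have e2 : p.1.2 = q.1.2 := p6 _ _ (mul_pos p.2.2.2 q.2.2.2) (le_antisymm h1.2 h2.2)
    exact Subtype.ext (Prod.ext e1 e2)
  letI : LinearOrder (Edge G T h) := LinearOrder.lift' sm hinj
  have hle : ∀ p q : Edge G T h, p ≤ q ↔ sm p ≤ sm q := fun p q => Iff.rfl
  have hlt : ∀ p q : Edge G T h, p < q ↔ sm p < sm q := fun p q => by
    rw [← not_le, ← not_le, hle]
  have hposinv : ∀ v, pos h (h⁻¹ • v) = pos h v - 1 := by
    intro v
    have := p1 (h⁻¹ • v)
    rw [smul_inv_smul] at this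
    linarith
  -- the action of `h`
  let f : Edge G T h ≃o Edge G T h :=
    { toFun := fun p => ⟨(h • p.1.1, h • p.1.2), E_smul p.2.1 hG,
        by simpa only [side_smul_self] using p.2.2.1, by
        simpa only [side_smul_self] using p.2.2.2⟩
      invFun := fun p => ⟨(h⁻¹ • p.1.1, h⁻¹ • p.1.2), E_smul p.2.1 (G.inv_mem hG),
        by simpa only [side_inv_smul] using p.2.2.1, by
        simpa only [side_inv_smul] using p.2.2.2⟩
      left_inv := fun p => Subtype.ext (Prod.ext (inv_smul_smul h _) (inv_smul_smul h _))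
      right_inv := fun p => Subtype.ext (Prod.ext (smul_inv_smul h _) (smul_inv_smul h _))
      map_rel_iff' := by
        intro p q
        rw [hle, hle]
        unfold sm
        change pos h (h • p.1.1) + pos h (h • p.1.2) ≤ pos h (h • q.1.1) + pos h (h • q.1.2) ↔ _
        rw [p1, p1, p1, p1]
        constructor <;> intro hh <;> linarith }
  have hf : ∀ p, p < f p := by
    intro p
    rw [hlt]
    change sm p < pos h (h • p.1.1) + pos h (h • p.1.2)
    rw [p1, p1]
    unfold sm
    linarith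
  -- finiteness
  have hF := hArc G ι inferInstance T hT.toNonCross
  have hIcc : ∀ p q : Edge G T h, (Set.Icc p q).Finite := by
    intro p q
    have hfin := hFin G _ hF.toSFam (h⁻¹ • p.1.1) (h • q.1.2)
    apply Set.Finite.of_finite_image (f := fun x : Edge G T h => arcF x.1.1 x.1.2)
    · apply hfin.subset
      rintro _ ⟨x, ⟨hx1, hx2⟩, rfl⟩
      refine ⟨⟨_, _, x.2.1, rfl⟩, ?_⟩
      have c1 := hcmp p x hx1
      have c2 := hcmp x q hx2
      have hcr : Cross x.1.1 x.1.2 (h⁻¹ • p.1.1) (h • q.1.2) := by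
        rw [p2 _ _ _ _ x.2.2.1 (by rw [side_inv_smul]; exact p.2.2.1) x.2.2.2
          (by rw [side_smul_self]; exact q.2.2.2), hposinv, p1]
        apply mul_neg_of_pos_of_neg
        · linarith [c1.1]
        · linarith [c2.2]
      have hd : dt x.1.1 x.1.2 ≠ 0 := dt_ne_zero hcr.ne.1
      have hd2 : 0 < dt x.1.1 x.1.2 ^ 2 := by positivity
      unfold Cross at hcr
      change (arcF x.1.1 x.1.2).ev _ * (arcF x.1.1 x.1.2).ev _ < 0
      rw [ev_arcF, ev_arcF]
      have : dt x.1.1 x.1.2 * dt x.1.2 (h⁻¹ • p.1.1) * dt (h⁻¹ • p.1.1) x.1.1 *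
          (dt x.1.1 x.1.2 * dt x.1.2 (h • q.1.2) * dt (h • q.1.2) x.1.1) =
          dt x.1.1 x.1.2 ^ 2 * (dt x.1.1 (h⁻¹ • p.1.1) * dt x.1.2 (h⁻¹ • p.1.1) *
            (dt x.1.1 (h • q.1.2) * dt x.1.2 (h • q.1.2))) := by
        rw [dt_symm (h⁻¹ • p.1.1) x.1.1, dt_symm (h • q.1.2) x.1.1]
        ring
      rw [this]
      exact mul_neg_of_pos_of_neg hd2 hcr
    · intro x _ y _ hxy
      have hxy' : arcF x.1.1 x.1.2 = arcF y.1.1 y.1.2 := hxy
      have s1 := x.2.2
      have s2 := y.2.2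
      have n1 : x.1.1 ≠ x.1.2 := fun e => by rw [e] at s1; omega
      have n2 : x.1.2 ≠ y.1.1 := fun e => by rw [e] at s1; omega
      have n3 : y.1.2 ≠ x.1.1 := fun e => by rw [e] at s2; omega
      have e1 : (arcF x.1.1 x.1.2).ev y.1.1 = 0 := by
        rw [hxy', ev_arcF, dt_self]; ring
      have e2 : (arcF x.1.1 x.1.2).ev y.1.2 = 0 := by
        rw [hxy', ev_arcF, dt_self]; ring
      rw [ev_arcF] at e1 e2
      have e3 : y.1.1 = x.1.1 := by
        rcases mul_eq_zero.1 e1 with e | e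
        · rcases mul_eq_zero.1 e with e | e
          · exact absurd (dt_eq_zero.1 e) n1
          · exact absurd (dt_eq_zero.1 e) n2
        · exact dt_eq_zero.1 e
      have e4 : x.1.2 = y.1.2 := by
        rcases mul_eq_zero.1 e2 with e | e
        · rcases mul_eq_zero.1 e with e | e
          · exact absurd (dt_eq_zero.1 e) n1
          · exact dt_eq_zero.1 e
        · exact absurd (dt_eq_zero.1 e) n3
      exact Subtype.ext (Prod.ext e3.symm e4)
  obtain ⟨u0, v0, hE0, hu0, hv0⟩ := hExe G ι inferInstance T h hT htr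
  haveI : Nonempty (Edge G T h) := ⟨⟨(u0, v0), hE0, hu0, hv0⟩⟩
  obtain ⟨e, r, hr, hsurj, hsucc, hper⟩ := int_iso hIcc f hf
  refine ⟨{ r := r, u := fun i => (e i).1.1, v := fun i => (e i).1.2, rpos := hr,
            edge := fun i => (e i).2.1, left := fun i => (e i).2.2.1,
            right := fun i => (e i).2.2.2, step := ?_, per := ?_, all := ?_ }⟩
  · intro i
    obtain ⟨u', v', hE', hu', hv', hst, hmin⟩ :=
      hNext G ι T h hT htr _ _ (e i).2.1 (e i).2.2.1 (e i).2.2.2
    obtain ⟨q, hq⟩ : ∃ q : Edge G T h, q.1 = (u', v') := ⟨⟨(u', v'), hE', hu', hv'⟩, rfl⟩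
    have hq1 : q.1.1 = u' := by rw [hq]
    have hq2 : q.1.2 = v' := by rw [hq]
    have hlt1 : e i < q := by
      rw [hlt]
      unfold sm
      rw [hq1, hq2]
      rcases hst with ⟨a1, a2, -⟩ | ⟨a1, a2, -⟩
      · rw [a1]; linarith
      · rw [a1]; linarith
    have hle1 := (hsucc i).2 _ hlt1
    have hc := hcmp (e i) (e (i + 1)) (hsucc i).1.le
    have hle2 : q ≤ e (i + 1) := by
      rcases hmin _ _ (e (i + 1)).2.1 (e (i + 1)).2.2.1 (e (i + 1)).2.2.2 hc.1 hc.2 with
        ⟨b1, b2⟩ | ⟨b1, b2⟩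
      · exfalso
        have : e (i + 1) = e i := Subtype.ext (Prod.ext b1 b2)
        exact absurd (hsucc i).1 (by rw [this]; exact lt_irrefl _)
      · rw [hle]
        unfold sm
        rw [hq1, hq2]
        linarith
    have heq := le_antisymm hle1 hle2
    rw [heq, hq1, hq2]
    exact hst
  · intro i
    have := hper i
    rw [this]
    exact ⟨rfl, rfl⟩
  · intro a b hE ha hb
    obtain ⟨i, hi⟩ := hsurj ⟨(a, b), hE, ha, hb⟩
    exact ⟨i, by rw [hi], by rw [hi]⟩

end Pool.Agent.Lib.MP_eee7a8_ag.TB.PB.H91
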